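import Pool.Agent.Q84.OT1
import Pool.Agent.Y827.GS.Iso

set_option autoImplicit false

/-!
# Linear equations in two or more times between isolated primes of orbits of `x ↦ D x + e`

Let `D ≥ 2` and `e > -D`, `e ≠ 0` coprime to `D`; the question is about the first step of the orbits of
`x ↦ 4 x + 1`. A number `j` is a recurring time of order `J` and level `R` if for every `η > 0` and
arbitrarily large `x` at least `x ^ (1 - η)` primes `p ≤ x` satisfy: the term at time `j` of the orbit of
`p` is prime, at most `J` of the terms at times `0 < l < j` are prime, and both primes are isolated: none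
of the `R` terms after `p`, before the term at time `j` and after the term at time `j` is prime, and `p` is
not one of the first `R` terms after a prime `q` in the orbit of `q`.

There is an ABSOLUTE `J` such that for all `D`, `e`, `R`, all `r ≥ 2` and all nonzero integers
`c_1, ..., c_r` there is `M` such that for EVERY multiple `N` of `M` there is `T` such that every solution
of `c_1 x_1 + ... + c_r x_r = n` in natural numbers `x_i ≥ T`, with `n` a multiple of `N`, lies within
distance `T` of a solution in recurring times of order `J` and level `R`. For instance every large multiple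
of `N` is a sum of two such times, both of them within distance `T` of its half, and every multiple of `N`
is a difference of two such times in every long interval.
-/

namespace Pool.Agent.Results.MP_3df474_nt.BinaryEquationsOfTimes

open Filter Finset Pool.Agent.Q84.PG Pool.Agent.Q84.OT

/-- recurring times of order `J` and level `R` of the orbits of `x ↦ D x + e` -/
def TimeJ (D : ℕ) (e : ℤ) (J R j : ℕ) : Prop :=
  ∀ η : ℝ, 0 < η → ∃ᶠ x : ℝ in atTop,
    x ^ (1 - η) ≤ ({p : ℕ | (p : ℝ) ≤ x ∧ p.Prime ∧ (orb D e p j).Prime ∧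
      {l : ℕ | 0 < l ∧ l < j ∧ (orb D e p l).Prime}.ncard ≤ J ∧
      ∀ l, 0 < l → l ≤ R → ¬ (orb D e p l).Prime ∧ ¬ (orb D e p (j + l)).Prime ∧
        ¬ (orb D e p (j - l)).Prime ∧ ∀ q : ℕ, q.Prime → orb D e q l ≠ p}.ncard : ℝ)

/-- **Every solution of a linear equation in `r ≥ 2` natural numbers, with a highly divisible right hand
side, is close to a solution in recurring times of bounded order.** -/
theorem result : ∃ J : ℕ, ∀ (D : ℕ) (e : ℤ), 2 ≤ D → e ≠ 0 → -(D : ℤ) < e →
    IsCoprime e (D : ℤ) → ∀ R r : ℕ, 2 ≤ r → ∀ c : Fin r → ℤ, (∀ i, c i ≠ 0) →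
    ∃ M : ℕ, 0 < M ∧ ∀ N : ℕ, 0 < N → M ∣ N → ∃ T : ℕ,
      ∀ x : Fin r → ℕ, (∀ i, T ≤ x i) → (N : ℤ) ∣ ∑ i, c i * (x i : ℤ) →
      ∃ g : Fin r → ℕ, (∀ i, TimeJ D e J R (g i) ∧ |(g i : ℤ) - x i| ≤ T) ∧
        ∑ i, c i * (g i : ℤ) = ∑ i, c i * (x i : ℤ) := by
  obtain ⟨J, hJ⟩ := Pool.Agent.Y827.GS.transferIG (1 / 36) (by norm_num)
  refine ⟨J, fun D e hD he0 he hcop R r hr c hc => ?_⟩
  obtain ⟨M0, hM0, h0⟩ := hJ D e (D - 1) hD he0 hcop (by omega)
    (fun p _ hd => Dvd.dvd.mul_left (by exact_mod_cast hd) e) (orb D e)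
    (fun p j hp => orb_cast D e hD he p j hp) R
  have hmore : More {g | TimeJ D e J R g} M0 (1 / 36) := by
    intro N hN hd
    obtain ⟨L, hL⟩ := h0 N hN hd
    refine ⟨L, fun l hl u => ?_⟩
    have h1 := hL l hl u
    rw [card_eq (fun k => ∀ η : ℝ, 0 < η → ∃ᶠ x : ℝ in atTop,
        x ^ (1 - η) ≤ ({p : ℕ | (p : ℝ) ≤ x ∧ p.Prime ∧ (orb D e p (N * k)).Prime ∧
          {l : ℕ | 0 < l ∧ l < N * k ∧ (orb D e p l).Prime}.ncard ≤ J ∧
          ∀ l, 0 < l → l ≤ R → ¬ (orb D e p l).Prime ∧ ¬ (orb D e p (N * k + l)).Prime ∧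
            ¬ (orb D e p (N * k - l)).Prime ∧ ∀ q : ℕ, q.Prime → orb D e q l ≠ p}.ncard : ℝ))] at h1
    have h2 : (5 / 9 - 1 / 36 : ℝ) * l ≤
      ((nwin {k | N * k ∈ {g | TimeJ D e J R g}} u l).card : ℝ) := h1
    have h3 : (1 / 2 + 1 / 36 : ℝ) * l = (5 / 9 - 1 / 36) * l := by ring
    rw [h3]
    exact h2
  obtain ⟨M, hM, h⟩ := solv_more (by omega) (by norm_num) hmore r hr c hc
  refine ⟨M, hM, fun N hN hd => ?_⟩
  obtain ⟨T, hT⟩ := h N hN hd 0
  exact ⟨T, fun x hx hdvd => hT x hx _ hdvd (by simp)⟩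

end Pool.Agent.Results.MP_3df474_nt.BinaryEquationsOfTimes
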