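import Pool.Agent.Q117.LF.Cnt

/-!
MP_3df474_nt (primes `p` with `4 p + 1` prime): exact patterns of times in the orbits of `x ↦ 4 x + 1`.
-/

set_option autoImplicit false

namespace Pool.Agent.Results.MP_3df474_nt.ExactTimes

/-- the scale of Rankin -/
noncomputable def R (X : ℝ) : ℝ :=
  Real.log X * Real.log (Real.log X) * Real.log (Real.log (Real.log (Real.log X))) / (Real.log (Real.log (Real.log X))) ^ 2

/-- all prime factors of `m` are `> z` (so `0` is not rough) -/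
def Rough (z : ℝ) (m : ℤ) : Prop := ∀ p : ℕ, p.Prime → (p : ℤ) ∣ m → z < p

/-- at most two prime factors (with multiplicity), all `> z` -/
def AtMostTwo (z : ℝ) (m : ℤ) : Prop := m.natAbs.primeFactorsList.length ≤ 2 ∧ Rough z m

/-- the term at the time `l` of the orbit of `n` under `x ↦ 4 x + 1` -/
def orb : ℕ → ℤ → ℤ
  | 0, n => n
  | l + 1, n => 4 * orb l n + 1

/-- `m` has no prime factor `≤ z`, all the other integers at distance `≤ D` from `m` have one that is `≤ y` -/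
def Isolated (z y D : ℝ) (m : ℤ) : Prop := Rough z m ∧ ∀ s : ℤ, s ≠ 0 → |(s : ℝ)| ≤ D → ¬ Rough y (m + s)

/-- the terms at the times `l ∈ J` are isolated, those at the other times `l ≤ L` have a prime factor `≤ C` -/
def Pattern (t C : ℕ) (X D : ℝ) (L : ℕ) (J : Finset ℕ) (n : ℕ) : Prop :=
  (∀ l ∈ J, Isolated (X ^ (1 / (t : ℝ))) (Real.log X) D (orb l n)) ∧ ∀ l, l ≤ L → l ∉ J → ¬ Rough C (orb l n)

theorem orb_eq (l : ℕ) (n : ℤ) : orb l n = Pool.Agent.Q117.LF.q4 l n := by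
  have h3 : ∀ l : ℕ, (3 : ℤ) ∣ 4 ^ l - 1 := fun l => by
    simpa using sub_dvd_pow_sub_pow (4 : ℤ) 1 l
  induction l with
  | zero => simp [orb, Pool.Agent.Q117.LF.q4]
  | succ l ih =>
    rw [orb, ih]
    unfold Pool.Agent.Q117.LF.q4
    obtain ⟨a, ha⟩ := h3 l
    obtain ⟨b, hb⟩ := h3 (l + 1)
    have h1 : ((4 : ℤ) ^ l - 1) / 3 = a := by rw [ha]; simp
    have h2 : ((4 : ℤ) ^ (l + 1) - 1) / 3 = b := by rw [hb]; simp
    rw [h1, h2]
    have h4 : (3 : ℤ) * b = 3 * (4 * a + 1) := by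
      rw [← hb, pow_succ]
      linarith
    have h5 : b = 4 * a + 1 := by linarith
    rw [h5, pow_succ]
    ring

theorem result : ∀ (L : ℕ) (J : Finset ℕ), (∀ l ∈ J, l ≤ L) → (∃ a : ℕ, ∀ l ∈ J, ¬ l ≡ a [MOD 3]) →
    ∀ i ∈ J, ∀ j ∈ J, i ≠ j → ∃ (t C : ℕ), 1 ≤ t ∧ ∃ c : ℝ, 0 < c ∧ ∃ X0 : ℝ, ∀ X : ℝ, X0 ≤ X →
    X ^ (98 / 100 : ℝ) ≤ ({n : ℕ | X < n ∧ (n : ℝ) ≤ 2 * X ∧ (orb i n).natAbs.Prime ∧ AtMostTwo (X ^ (1 / 9 : ℝ)) (orb j n) ∧
      Pattern t C X (c * R X) L J n}.ncard : ℝ) := by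
  intro L J h1 h2 i hi j hj hij
  obtain ⟨t, C, ht, c, hc, X0, h⟩ := Pool.Agent.Q117.LF.t4 Pool.Agent.Q117.LF.linC L J h1 h2 i hi j hj hij
  refine ⟨t, C, ht, c, hc, max X0 0, fun X hX => ?_⟩
  have hX0 : (0 : ℝ) ≤ X := (le_max_right _ _).trans hX
  have h' := Pool.Agent.Q117.LF.cnt hX0 _ _ (h X ((le_max_left _ _).trans hX))
  simp only [← orb_eq] at h'
  exact h'

end Pool.Agent.Results.MP_3df474_nt.ExactTimes
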