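import Pool.Agent.Q250.NP.NatRow

/-!
# Primes `p` with `4 p + 1` almost prime, and almost primes `p` with `4 p + 1` prime: narrow progressions in every dyadic window
-/

set_option autoImplicit false

namespace Pool.Agent.Results.MP_3df474_nt.ProgressionsBothWays

open Finset Filter Polynomial
open Pool.Agent.Q250.NP
open Pool.Agent.Q253.Line (W NFD rt)

/-- the member of the pair `(y, 4 y + 1)` which is asked to be prime: `y` or `4 y + 1` -/
def primeMember (b : Bool) (y : ℕ) : ℕ := if b then y else 4 * y + 1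

/-- the other member -/
def otherMember (b : Bool) (y : ℕ) : ℕ := if b then 4 * y + 1 else y

/-- the product of `1 - ω p / p` over the primes `p ≤ n`, where `ω 2 = 1` and `ω p = 2` for the odd primes -/
noncomputable def dens (n : ℕ) : ℝ := ∏ p ∈ (Icc 1 n).filter Nat.Prime, (1 - (if p = 2 then 1 else 2 : ℝ) / p)

open Classical in
/-- the `n < y < 2 n` with one member of `(y, 4 y + 1)` prime and all prime factors of the other one larger than `n ^ (1/t)` -/
noncomputable def Good (b : Bool) (t n : ℕ) : Finset ℕ :=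
  (Ioo n (2 * n)).filter (fun y : ℕ => (primeMember b y).Prime ∧
    ∀ r : ℕ, r.Prime → r ∣ otherMember b y → (n : ℝ) ^ (1 / (t : ℝ)) < r)

theorem Good_eq (b : Bool) (t n : ℕ) : Good b t n = T (primeMember b) (fun _ : Fin 1 => otherMember b) t n := by
  classical
  unfold Good T
  apply filter_congr
  intro q _
  constructor
  · rintro ⟨h1, h2⟩
    exact ⟨h1, fun _ => h2⟩
  · rintro ⟨h1, h2⟩
    exact ⟨h1, h2 0⟩

/-- the linear form which is asked to be prime -/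
def al (b : Bool) : ℤ := if b then 1 else 4
/-- its constant term -/
def be (b : Bool) : ℤ := if b then 0 else 1
/-- the other polynomial -/
noncomputable def G (b : Bool) : ℤ[X] := if b then C 4 * X + C 1 else C 1 * X + C 0

theorem eval_prod_G (b : Bool) (x : ℤ) : ((C (al b) * X + C (be b)) * ∏ _i : Fin 1, G b).eval x = x * (4 * x + 1) := by
  rw [Fin.prod_univ_one]
  cases b
  · simp [al, be, G]; ring
  · simp [al, be, G]

theorem repr (b : Bool) {n : ℕ} (hn : 9 ≤ n) : Rep (m := 1) 1 2 n (al b) (be b) (primeMember b) (fun _ => otherMember b)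
    (fun _ => G b) := by
  have h9 : 9 * n ≤ n ^ 2 := by nlinarith
  constructor
  · rw [Fin.prod_univ_one]
    cases b
    · exact natDegree_linear_le
    · exact natDegree_linear_le
  · intro p hp
    have hev : ((C (al b) * X + C (be b)) * (∏ i : Fin 1, (fun _ : Fin 1 => G b) i)) = (C (al b) * X + C (be b)) * ∏ _i : Fin 1, G b := rfl
    by_cases h3 : p = 3
    · refine ⟨1, ?_⟩
      rw [hev, eval_prod_G, h3]
      norm_num
    · refine ⟨-1, ?_⟩
      rw [hev, eval_prod_G]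
      norm_num
      intro h
      have h8 : p ∣ 3 := by exact_mod_cast h
      rcases (Nat.dvd_prime (by norm_num)).1 h8 with h9 | h9
      · exact hp.one_lt.ne' h9
      · exact h3 h9
  · intro y h1 h2
    cases b
    · refine ⟨?_, ?_⟩ <;> simp [al, be, primeMember] <;> omega
    · refine ⟨?_, ?_⟩ <;> simp [al, be, primeMember] <;> omega
  · intro y h1 h2 i
    cases b
    · simp [G, otherMember]
    · simp [G, otherMember]; omega
  · intro y h1 h2 i
    cases b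
    · simp only [otherMember, Bool.false_eq_true, if_false]
      refine ⟨by omega, by omega⟩
    · simp only [otherMember, if_true]
      refine ⟨by omega, by omega⟩

theorem dens_eq (b : Bool) (n : ℕ) : dens n = W ((C (al b) * X + C (be b)) * ∏ i : Fin 1, (fun _ : Fin 1 => G b) i) n := by
  unfold dens W
  apply prod_congr rfl
  intro p hp
  have hpp : p.Prime := (Pool.Agent.Q253.Line.mem_pr.1 hp).1
  have : Fact p.Prime := ⟨hpp⟩
  congr 2
  have hev : ∀ x : ℤ, ((C (al b) * X + C (be b)) * ∏ i : Fin 1, (fun _ : Fin 1 => G b) i).eval x = x * (4 * x + 1) := fun x =>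
    eval_prod_G b x
  unfold rt
  simp only [hev]
  by_cases h2 : p = 2
  · subst h2
    have h : (range 2).filter (fun x : ℕ => ((2 : ℕ) : ℤ) ∣ (x : ℤ) * (4 * (x : ℤ) + 1)) = {0} := by
      decide
    rw [h]
    simp
  · rw [if_neg h2]
    -- the root of `4 x + 1`
    obtain ⟨w, hw⟩ : ∃ w : ZMod p, 4 * w + 1 = 0 := by
      have h4 : (4 : ZMod p) ≠ 0 := by
        intro h
        have h5 : p ∣ 4 := (ZMod.natCast_eq_zero_iff 4 p).1 (by exact_mod_cast h)
        have h6 : p ∣ 2 := hpp.dvd_of_dvd_pow (show p ∣ 2 ^ 2 by simpa using h5)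
        exact h2 ((Nat.prime_dvd_prime_iff_eq hpp Nat.prime_two).1 h6)
      refine ⟨-(4 : ZMod p)⁻¹, ?_⟩
      field_simp
      ring
    have hw0 : w ≠ 0 := by
      intro h
      rw [h] at hw
      simp at hw
    have hcard : ((range p).filter (fun x : ℕ => (p : ℤ) ∣ (x : ℤ) * (4 * (x : ℤ) + 1))) = {0, w.val} := by
      ext x
      rw [mem_filter, mem_range, mem_insert, mem_singleton]
      have key : (p : ℤ) ∣ (x : ℤ) * (4 * (x : ℤ) + 1) ↔ (x : ZMod p) = 0 ∨ (x : ZMod p) = w := by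
        rw [← ZMod.intCast_zmod_eq_zero_iff_dvd]
        push_cast
        rw [mul_eq_zero]
        constructor
        · rintro (h | h)
          · exact Or.inl h
          · right
            have h5 : (4 : ZMod p) * ((x : ZMod p) - w) = 0 := by linear_combination h - hw
            have h4 : (4 : ZMod p) ≠ 0 := by
              intro h6
              rw [h6] at hw
              simp at hw
            rcases mul_eq_zero.1 h5 with h6 | h6
            · exact absurd h6 h4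
            · exact sub_eq_zero.1 h6
        · rintro (h | h)
          · exact Or.inl h
          · right
            rw [h]
            exact hw
      rw [key]
      constructor
      · rintro ⟨h1, h | h⟩
        · left
          rw [ZMod.natCast_eq_zero_iff] at h
          exact Nat.eq_zero_of_dvd_of_lt h h1
        · right
          rw [← h, ZMod.val_natCast_of_lt h1]
      · rintro (h | h)
        · rw [h]
          exact ⟨hpp.pos, Or.inl (by simp)⟩
        · rw [h]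
          exact ⟨ZMod.val_lt w, Or.inr (by rw [ZMod.natCast_val, ZMod.cast_id', id])⟩
    rw [hcard, card_pair]
    · norm_num
    · intro h
      exact hw0 ((ZMod.val_eq_zero w).1 h.symm)

/-- **Narrow progressions of primes `y` with `4 y + 1` almost prime, and of almost primes `y` with `4 y + 1` prime.** -/
theorem result : ∃ t : ℕ, 1 ≤ t ∧ ∃ c : ℝ, 0 < c ∧ ∀ b : Bool,
    (∃ N : ℕ, ∀ n : ℕ, N ≤ n → c / Real.log n ^ 2 ≤ dens n ∧ c * (n * dens n) ≤ ((Good b t n).card : ℝ)) ∧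
    (∀ (L : ℕ) (δ : ℝ), 0 < δ → ∃ D N : ℕ, ∀ n : ℕ, N ≤ n → ∀ S ⊆ Good b t n, δ * ((Good b t n).card : ℝ) ≤ S.card →
      ∃ x d : ℕ, 1 ≤ d ∧ (d : ℝ) ≤ Real.log n ^ D ∧ ∀ j < L, x + j * d ∈ S) ∧
    (∀ (L q : ℕ), 1 ≤ q → ∃ D N : ℕ, ∀ n : ℕ, N ≤ n → ∀ col : ℕ → Fin q, ∃ (s : ℕ) (κ : Fin q) (x d : ℕ),
      1 ≤ s ∧ s ≤ 2 * t ∧ 1 ≤ d ∧ (d : ℝ) ≤ Real.log n ^ D ∧ ∀ j < L,
        n < x + j * d ∧ x + j * d < 2 * n ∧ col (x + j * d) = κ ∧ (primeMember b (x + j * d)).Prime ∧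
          (otherMember b (x + j * d)).primeFactorsList.length = s ∧
          ∀ r : ℕ, r.Prime → r ∣ otherMember b (x + j * d) → (n : ℝ) ^ (1 / (t : ℝ)) < r) := by
  classical
  obtain ⟨t, ht, H⟩ := natRow 1 1 2
  obtain ⟨cT, hcT, hT⟩ := H (al true) (be true) (by simp [al])
  obtain ⟨cF, hcF, hF⟩ := H (al false) (be false) (by simp [al])
  have hall : ∀ b : Bool, (∃ N : ℕ, ∀ n : ℕ, N ≤ n → min cT cF / Real.log n ^ 2 ≤ dens n ∧
        min cT cF * (n * dens n) ≤ ((Good b t n).card : ℝ)) ∧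
      (∀ (L : ℕ) (δ : ℝ), 0 < δ → ∃ D N : ℕ, ∀ n : ℕ, N ≤ n → ∀ S ⊆ T (primeMember b) (fun _ : Fin 1 => otherMember b) t n,
        δ * ((T (primeMember b) (fun _ : Fin 1 => otherMember b) t n).card : ℝ) ≤ S.card →
        ∃ x d : ℕ, 1 ≤ d ∧ (d : ℝ) ≤ Real.log n ^ D ∧ ∀ j < L, x + j * d ∈ S) ∧
      (∀ (L q : ℕ), 1 ≤ q → ∃ D N : ℕ, ∀ n : ℕ, N ≤ n → ∀ col : ℕ → Fin q,
        ∃ (s : Fin 1 → ℕ) (κ : Fin q) (x d : ℕ), (∀ i, 1 ≤ s i ∧ s i ≤ t * 2) ∧ 1 ≤ d ∧ (d : ℝ) ≤ Real.log n ^ D ∧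
          ∀ j < L, x + j * d ∈ T (primeMember b) (fun _ : Fin 1 => otherMember b) t n ∧ col (x + j * d) = κ ∧
            ∀ _i : Fin 1, (otherMember b (x + j * d)).primeFactorsList.length = s 0) := by
    have hlog : ∀ n : ℕ, 9 ≤ n → 0 < Real.log n := fun n hn => Real.log_pos (by exact_mod_cast (by omega : 1 < n))
    have core : ∀ (b : Bool) (c : ℝ), min cT cF ≤ c → ((∃ N : ℕ, ∀ n : ℕ, N ≤ n → ∀ l (f : Fin 1 → ℕ → ℕ) G', Rep 1 2 n (al b) (be b) l f G' →
      c / Real.log n ^ (1 + 1) ≤ W ((C (al b) * X + C (be b)) * ∏ i, G' i) n ∧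
      c * (n * W ((C (al b) * X + C (be b)) * ∏ i, G' i) n) ≤ ((T l f t n).card : ℝ)) ∧
      (∀ (L : ℕ) (δ : ℝ), 0 < δ → ∃ D N : ℕ, ∀ n : ℕ, N ≤ n → ∀ l (f : Fin 1 → ℕ → ℕ) G', Rep 1 2 n (al b) (be b) l f G' →
      ∀ S ⊆ T l f t n, δ * ((T l f t n).card : ℝ) ≤ S.card →
        ∃ x d : ℕ, 1 ≤ d ∧ (d : ℝ) ≤ Real.log n ^ D ∧ ∀ j < L, x + j * d ∈ S) ∧
      (∀ (L q : ℕ), 1 ≤ q → ∃ D N : ℕ, ∀ n : ℕ, N ≤ n → ∀ l (f : Fin 1 → ℕ → ℕ) G', Rep 1 2 n (al b) (be b) l f G' →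
      ∀ col : ℕ → Fin q, ∃ (s : Fin 1 → ℕ) (b : Fin q) (x d : ℕ), (∀ i, 1 ≤ s i ∧ s i ≤ t * 2) ∧
        1 ≤ d ∧ (d : ℝ) ≤ Real.log n ^ D ∧ ∀ j < L, x + j * d ∈ T l f t n ∧ col (x + j * d) = b ∧
          ∀ i, (f i (x + j * d)).primeFactorsList.length = s i)) →
      ((∃ N : ℕ, ∀ n : ℕ, N ≤ n → min cT cF / Real.log n ^ 2 ≤ dens n ∧
        min cT cF * (n * dens n) ≤ ((Good b t n).card : ℝ)) ∧
      (∀ (L : ℕ) (δ : ℝ), 0 < δ → ∃ D N : ℕ, ∀ n : ℕ, N ≤ n → ∀ S ⊆ T (primeMember b) (fun _ : Fin 1 => otherMember b) t n,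
        δ * ((T (primeMember b) (fun _ : Fin 1 => otherMember b) t n).card : ℝ) ≤ S.card →
        ∃ x d : ℕ, 1 ≤ d ∧ (d : ℝ) ≤ Real.log n ^ D ∧ ∀ j < L, x + j * d ∈ S) ∧
      (∀ (L q : ℕ), 1 ≤ q → ∃ D N : ℕ, ∀ n : ℕ, N ≤ n → ∀ col : ℕ → Fin q,
        ∃ (s : Fin 1 → ℕ) (κ : Fin q) (x d : ℕ), (∀ i, 1 ≤ s i ∧ s i ≤ t * 2) ∧ 1 ≤ d ∧ (d : ℝ) ≤ Real.log n ^ D ∧
          ∀ j < L, x + j * d ∈ T (primeMember b) (fun _ : Fin 1 => otherMember b) t n ∧ col (x + j * d) = κ ∧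
            ∀ _i : Fin 1, (otherMember b (x + j * d)).primeFactorsList.length = s 0)) := by
      rintro b c hcb ⟨⟨N1, h1⟩, h2, h3⟩
      refine ⟨⟨max N1 9, fun n hn => ?_⟩, fun L δ hδ => ?_, fun L q hq => ?_⟩
      · have hn9 : 9 ≤ n := (le_max_right _ _).trans hn
        obtain ⟨g1, g2⟩ := h1 n ((le_max_left _ _).trans hn) _ _ _ (repr b hn9)
        rw [← dens_eq] at g1 g2
        have := hlog n hn9
        have hd0 : 0 ≤ dens n := le_trans (by
          have : 0 ≤ c := le_trans (le_min hcT.le hcF.le) hcb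
          positivity) g1
        rw [Good_eq]
        exact ⟨le_trans (div_le_div_of_nonneg_right hcb (by positivity)) g1,
          le_trans (mul_le_mul_of_nonneg_right hcb (by positivity)) g2⟩
      · obtain ⟨D, N, h4⟩ := h2 L δ hδ
        exact ⟨D, max N 9, fun n hn S hS hSc =>
          h4 n ((le_max_left _ _).trans hn) _ _ _ (repr b ((le_max_right _ _).trans hn)) S hS hSc⟩
      · obtain ⟨D, N, h4⟩ := h3 L q hq
        refine ⟨D, max N 9, fun n hn col => ?_⟩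
        obtain ⟨s, κ, x, d, g1, g2, g3, g4⟩ := h4 n ((le_max_left _ _).trans hn) _ _ _
          (repr b ((le_max_right _ _).trans hn)) col
        exact ⟨s, κ, x, d, g1, g2, g3, fun j hj => ⟨(g4 j hj).1, (g4 j hj).2.1, fun _ => (g4 j hj).2.2 0⟩⟩
    intro b
    cases b
    · exact core false cF (min_le_right _ _) hF
    · exact core true cT (min_le_left _ _) hT
  refine ⟨t, ht, min cT cF, lt_min hcT hcF, fun b => ?_⟩
  obtain ⟨h1, h2, h3⟩ := hall b
  refine ⟨h1, fun L δ hδ => ?_, fun L q hq => ?_⟩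
  · obtain ⟨D, N, h4⟩ := h2 L δ hδ
    refine ⟨D, N, fun n hn S hS hSc => ?_⟩
    rw [Good_eq] at hS hSc
    exact h4 n hn S hS hSc
  · obtain ⟨D, N, h4⟩ := h3 L q hq
    refine ⟨D, N, fun n hn col => ?_⟩
    obtain ⟨s, κ, x, d, g1, g2, g3, g4⟩ := h4 n hn col
    refine ⟨s 0, κ, x, d, (g1 0).1, by linarith [(g1 0).2], g2, g3, fun j hj => ?_⟩
    obtain ⟨g5, g6, g7⟩ := g4 j hj
    unfold T at g5
    rw [mem_filter, mem_Ioo] at g5
    exact ⟨g5.1.1, g5.1.2, g6, g5.2.1, g7 0, g5.2.2 0⟩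

end Pool.Agent.Results.MP_3df474_nt.ProgressionsBothWays
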